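import Pool.Agent.R387.OV.Alg

/-!
# Single equations and systems of equations over one-relator groups

For `G = ⟨X | r⟩` and a new letter `a` the group `G * ⟨a⟩ = ⟨X, a | r⟩` is again a one-relator
group.  A system `w_1 = 1, …, w_k = 1` of equations over a group `G` is solvable in `G` if and only
if the single equation `w_1 a w_1⁻¹ ⋯ w_k a w_k⁻¹ = a ^ k` is solvable in `G * ⟨a⟩`.  Hence a
positive answer to the question whether satisfiability of a single equation in one variable is
decidable over all one-relator groups is equivalent to the same for finite systems.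
-/

set_option autoImplicit false

namespace Pool.Agent.Results.MP_1ebeae_al.SystemsFromSingleEquations

open Pool.Agent.R387.OV

/-- the equation `w = 1` in `m` unknowns is satisfiable in `G = ⟨x_0, …, x_{n-1} | R⟩` -/
def SatEq {n m : ℕ} (R : Set (FreeGroup (Fin n))) (w : Wd n m) : Prop :=
  ∃ g : Fin m → PresentedGroup R, value R g w = 1

/-- the system of the equations `w = 1`, `w ∈ l`, in `m` unknowns is satisfiable in
`G = ⟨x_0, …, x_{n-1} | R⟩` -/
def SatSys {n m : ℕ} (R : Set (FreeGroup (Fin n))) (l : List (Wd n m)) : Prop :=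
  ∃ g : Fin m → PresentedGroup R, ∀ w ∈ l, value R g w = 1

/-- the single `m`-variable equation problem for `⟨x_0, …, x_{n-1} | R⟩` is decidable -/
def EqDecidable (n m : ℕ) (R : Set (FreeGroup (Fin n))) : Prop :=
  ComputablePred (fun w : Wd n m => SatEq R w)

/-- satisfiability of finite systems of `m`-variable equations over `⟨x_0, …, x_{n-1} | R⟩` is
decidable -/
def SysDecidable (n m : ℕ) (R : Set (FreeGroup (Fin n))) : Prop :=
  ComputablePred (fun l : List (Wd n m) => SatSys R l)

/-- satisfiability of the equations `w_1 a w_1⁻¹ ⋯ w_k a w_k⁻¹ = a ^ k` with words `w_i` not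
involving `a` over `⟨x_0, …, x_{n-1}, a | R⟩` is decidable -/
def SpecialDecidable (n m : ℕ) (R : Set (FreeGroup (Fin n))) : Prop :=
  ComputablePred (fun l : List (Wd n m) => SatEq (ext R) (red l))

/-- the element of `⟨x_0, …, x_{n-1} | R⟩` represented by a word -/
def elt {n : ℕ} (R : Set (FreeGroup (Fin n))) (u : List (Fin n × Bool)) : PresentedGroup R :=
  PresentedGroup.mk R (FreeGroup.mk u)

/-- the simultaneous conjugacy problem for `⟨x_0, …, x_{n-1} | R⟩` is decidable: there is an
algorithm which decides for lists `(u_1, v_1), …, (u_k, v_k)` of pairs of words whether there is `g`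
with `g⁻¹ u_i g = v_i` for all `i` -/
def SimConjDecidable (n : ℕ) (R : Set (FreeGroup (Fin n))) : Prop :=
  ComputablePred (fun l : List (List (Fin n × Bool) × List (Fin n × Bool)) =>
    ∃ g : PresentedGroup R, ∀ p ∈ l, g⁻¹ * elt R p.1 * g = elt R p.2)

/-- the single one-variable equation problem is decidable for every one-relator group -/
def Q1 : Prop := ∀ (n : ℕ) (r : FreeGroup (Fin n)), EqDecidable n 1 {r}

theorem ext_singleton {n : ℕ} (r : FreeGroup (Fin n)) :
    ext {r} = {FreeGroup.map Fin.castSucc r} := by
  simp [ext]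

theorem primrec_lft {n m : ℕ} : Primrec (fun w : Wd n m => w.map (lft (n := n) (m := m))) :=
  Primrec.list_map Primrec.id ((Primrec.dom_finite lft).comp Primrec.snd)

theorem primrec_invRev {A : Type} [Primcodable A] [Finite A] :
    Primrec (fun w : List (A × Bool) => FreeGroup.invRev w) := by
  unfold FreeGroup.invRev
  exact Primrec.list_reverse.comp (Primrec.list_map Primrec.id
    ((Primrec.dom_finite (fun g : A × Bool => (g.1, !g.2))).comp Primrec.snd))

theorem primrec_conjW {n m : ℕ} : Primrec (fun w : Wd n m => conjW w) := by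
  unfold conjW
  exact Primrec.list_append.comp primrec_lft
    (Primrec.list_cons.comp (Primrec.const _) (primrec_invRev.comp primrec_lft))

theorem primrec_red {n m : ℕ} : Primrec (fun l : List (Wd n m) => red l) := by
  unfold red
  exact Primrec.list_append.comp
    (Primrec.list_flatMap Primrec.id (primrec_conjW.comp Primrec.snd))
    (Primrec.list_map Primrec.id (Primrec.const _))

theorem many_one {α β : Type} [Primcodable α] [Primcodable β] {p : α → Prop} {q : β → Prop}
    (f : α → β) (hf : Primrec f) (h : ∀ a, p a ↔ q (f a)) (hq : ComputablePred q) :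
    ComputablePred p :=
  ComputablePred.computable_of_manyOneReducible ⟨f, hf.to_comp, h⟩ hq

theorem sys_of_special {n m : ℕ} {R : Set (FreeGroup (Fin n))} (h : SpecialDecidable n m R) :
    SysDecidable n m R :=
  ComputablePred.of_eq h (fun l => (sat_iff R l).symm)

theorem special_of_eq {n m : ℕ} {R : Set (FreeGroup (Fin n))}
    (h : EqDecidable (n + 1) m (ext R)) : SpecialDecidable n m R :=
  many_one (fun l => red l) primrec_red (fun _ => Iff.rfl) h

theorem eq_of_sys {n m : ℕ} {R : Set (FreeGroup (Fin n))} (h : SysDecidable n m R) :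
    EqDecidable n m R :=
  many_one (fun w => [w]) (Primrec.list_cons.comp Primrec.id (Primrec.const _))
    (fun w => by simp [SatEq, SatSys]) h

/-- a word in the constants as a word in the constants and the unknown -/
def emb {n : ℕ} (p : Fin n × Bool) : (Fin n ⊕ Fin 1) × Bool := (Sum.inl p.1, p.2)

/-- the word `x⁻¹ u x v⁻¹` -/
def cw {n : ℕ} (p : List (Fin n × Bool) × List (Fin n × Bool)) : Wd n 1 :=
  (Sum.inr 0, false) :: (p.1.map emb ++ (Sum.inr 0, true) :: FreeGroup.invRev (p.2.map emb))

theorem primrec_emb {n : ℕ} : Primrec (fun w : List (Fin n × Bool) => w.map (emb (n := n))) :=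
  Primrec.list_map Primrec.id ((Primrec.dom_finite emb).comp Primrec.snd)

theorem primrec_cw {n : ℕ} :
    Primrec (fun p : List (Fin n × Bool) × List (Fin n × Bool) => cw p) := by
  unfold cw
  exact Primrec.list_cons.comp (Primrec.const _) (Primrec.list_append.comp
    (primrec_emb.comp Primrec.fst)
    (Primrec.list_cons.comp (Primrec.const _)
      (primrec_invRev.comp (primrec_emb.comp Primrec.snd))))

theorem value_emb {n : ℕ} (R : Set (FreeGroup (Fin n))) (g : Fin 1 → PresentedGroup R)
    (u : List (Fin n × Bool)) :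
    FreeGroup.lift (Sum.elim (fun i => (PresentedGroup.of i : PresentedGroup R)) g)
      (FreeGroup.mk (u.map emb)) = elt R u := by
  have e : FreeGroup.mk (u.map emb) = FreeGroup.map Sum.inl (FreeGroup.mk u) := by
    rw [FreeGroup.map.mk]; rfl
  rw [e, elt]
  have h : (FreeGroup.lift (Sum.elim (fun i => (PresentedGroup.of i : PresentedGroup R)) g)).comp
      (FreeGroup.map Sum.inl) = PresentedGroup.mk R := by
    apply FreeGroup.ext_hom
    intro i
    simp [PresentedGroup.of]
  exact DFunLike.congr_fun h (FreeGroup.mk u)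

theorem value_cw {n : ℕ} (R : Set (FreeGroup (Fin n))) (g : Fin 1 → PresentedGroup R)
    (p : List (Fin n × Bool) × List (Fin n × Bool)) :
    value R g (cw p) = (g 0)⁻¹ * elt R p.1 * g 0 * (elt R p.2)⁻¹ := by
  rw [value, cw, lift_cons, lift_append, lift_cons, lift_invRev, value_emb, value_emb]
  simp [mul_assoc]

theorem simconj_of_sys {n : ℕ} {R : Set (FreeGroup (Fin n))} (h : SysDecidable n 1 R) :
    SimConjDecidable n R := by
  refine many_one (fun l => l.map cw) (Primrec.list_map Primrec.id (primrec_cw.comp Primrec.snd))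
    (fun l => ?_) h
  constructor
  · rintro ⟨g, hg⟩
    refine ⟨fun _ => g, fun w hw => ?_⟩
    obtain ⟨p, hp, rfl⟩ := List.mem_map.1 hw
    rw [value_cw, mul_inv_eq_one]
    exact hg p hp
  · rintro ⟨g, hg⟩
    refine ⟨g 0, fun p hp => ?_⟩
    have := hg (cw p) (List.mem_map_of_mem hp)
    rwa [value_cw, mul_inv_eq_one] at this

/-- the word `red l` represents an element of the commutator subgroup of the free group on the
constants and the unknowns -/
theorem red_mem_commutator {n m : ℕ} (l : List (Wd n m)) :
    FreeGroup.mk (red l) ∈ commutator (FreeGroup (Fin (n + 1) ⊕ Fin m)) := by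
  rw [← Abelianization.ker_of, MonoidHom.mem_ker]
  have h : (Abelianization.of : FreeGroup (Fin (n + 1) ⊕ Fin m) →* _) =
      FreeGroup.lift (fun i => Abelianization.of (FreeGroup.of i)) := by
    apply FreeGroup.ext_hom
    intro i
    simp
  rw [h, lift_red]
  simp only [mul_inv_cancel_comm]
  rw [List.map_const', List.prod_replicate, mul_inv_cancel]

/-- (1) A system of equations over `G = ⟨X | R⟩` is solvable in `G` if and only if the equation
`w_1 a w_1⁻¹ ⋯ w_k a w_k⁻¹ = a ^ k` is solvable in `G * ⟨a⟩ = ⟨X, a | R⟩`; its word lies in the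
commutator subgroup.  (2) If single equations in `m` variables are decidable over `G * ⟨a⟩`, then so
are finite systems over `G`.  (3) Single `m`-variable equations are decidable over all one-relator
groups if and only if finite systems are.  (4) `Q1` is equivalent to its restriction to the
equations in (1) over the groups `⟨X, a | r⟩`.  (5) `Q1` implies that the simultaneous conjugacy
problem is decidable in every one-relator group. -/
theorem result :
    (∀ (n m : ℕ) (R : Set (FreeGroup (Fin n))) (l : List (Wd n m)),
      (SatSys R l ↔ SatEq (ext R) (red l)) ∧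
        FreeGroup.mk (red l) ∈ commutator (FreeGroup (Fin (n + 1) ⊕ Fin m))) ∧
    (∀ (n m : ℕ) (R : Set (FreeGroup (Fin n))),
      EqDecidable (n + 1) m (ext R) → SysDecidable n m R) ∧
    (∀ m : ℕ, (∀ (n : ℕ) (r : FreeGroup (Fin n)), EqDecidable n m {r}) ↔
      ∀ (n : ℕ) (r : FreeGroup (Fin n)), SysDecidable n m {r}) ∧
    (Q1 ↔ ∀ (n : ℕ) (r : FreeGroup (Fin n)), SpecialDecidable n 1 {r}) ∧
    (Q1 → ∀ (n : ℕ) (r : FreeGroup (Fin n)), SimConjDecidable n {r}) := by
  have h2 : ∀ (n m : ℕ) (R : Set (FreeGroup (Fin n))),
      EqDecidable (n + 1) m (ext R) → SysDecidable n m R :=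
    fun n m R h => sys_of_special (special_of_eq h)
  have h3 : ∀ (m : ℕ), (∀ (n : ℕ) (r : FreeGroup (Fin n)), EqDecidable n m {r}) →
      ∀ (n : ℕ) (r : FreeGroup (Fin n)), SysDecidable n m {r} := by
    intro m h n r
    apply h2
    rw [ext_singleton]
    exact h _ _
  refine ⟨fun n m R l => ⟨sat_iff R l, red_mem_commutator l⟩, h2,
    fun m => ⟨h3 m, fun h n r => eq_of_sys (h n r)⟩, ⟨fun h n r => ?_, fun h n r => ?_⟩,
    fun h n r => simconj_of_sys (h3 1 h n r)⟩
  · apply special_of_eq
    rw [ext_singleton]
    exact h _ _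
  · exact eq_of_sys (sys_of_special (h n r))

end Pool.Agent.Results.MP_1ebeae_al.SystemsFromSingleEquations
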